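import Pool.Agent.Y877.SxJ

/-!
# Representations `n = k + m` with `p_k² + h₁`, `p_m² + h₂`, `p_{p_m}² + h₃` prime, for almost all shifts and arbitrary
dense sets of `k`
-/

set_option autoImplicit false

open Finset

namespace Pool.Agent.Results.MP_04ff0f_nt.GenericShifts

/-- the `k`-th prime, `p 1 = 2` -/
noncomputable def p (k : ℕ) : ℕ := Nat.nth Nat.Prime (k - 1)

/-- the product of `1 - 1/q` over the primes `q ≤ y` -/
noncomputable def V (y : ℕ) : ℝ := ∏ q ∈ (Icc 1 y).filter Nat.Prime, (1 - 1 / (q : ℝ))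

/-- the `k ∈ K` such that `p_k² + h₁`, `p_m² + h₂` and `p_{p_m}² + h₃` are prime, where `m = n - k` -/
noncomputable def Good (n : ℕ) (K : Finset ℕ) (h₁ h₂ h₃ : ℕ) : Finset ℕ :=
  K.filter (fun k => (p k ^ 2 + h₁).Prime ∧ (p (n - k) ^ 2 + h₂).Prime ∧ (p (p (n - k)) ^ 2 + h₃).Prime)

theorem nth_inj : Function.Injective (Nat.nth Nat.Prime) := Nat.nth_injective Nat.infinite_setOfPred_prime

theorem p_inj (n : ℕ) : Set.InjOn p (Ioo 0 n : Finset ℕ) := by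
  intro a ha b hb hab
  rw [mem_coe, mem_Ioo] at ha hb
  have := nth_inj hab
  omega

theorem pm_inj (n : ℕ) : Set.InjOn (fun k => p (n - k)) (Ioo 0 n : Finset ℕ) := by
  intro a ha b hb hab
  rw [mem_coe, mem_Ioo] at ha hb
  have := nth_inj hab
  omega

theorem pp_inj (n : ℕ) : Set.InjOn (fun k => p (p (n - k))) (Ioo 0 n : Finset ℕ) := by
  intro a ha b hb hab
  rw [mem_coe, mem_Ioo] at ha hb
  have h1 := nth_inj hab
  have h2 : 2 ≤ p (n - a) := (Nat.prime_nth_prime _).two_le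
  have h3 : 2 ≤ p (n - b) := (Nat.prime_nth_prime _).two_le
  have h4 : p (n - a) = p (n - b) := by omega
  have h5 := nth_inj h4
  omega

open Classical in
theorem step3 (A B C : ℕ) (ε : ℝ) (hε : 0 < ε) (hε1 : ε ≤ 1) :
    ∃ K0 : ℕ, ∀ K1 : ℕ, ∃ n0 : ℕ, ∀ n : ℕ, n0 ≤ n →
    ∀ y : ℕ, K0 * Real.log (Real.log n) ≤ y → y ≤ K1 * Real.log (Real.log n) →
    ∀ J : Finset ℕ, (n : ℝ) ≤ J.card * Real.log n ^ A → ∀ f₁ f₂ f₃ : ℕ → ℕ, Set.InjOn f₁ J → Set.InjOn f₂ J → Set.InjOn f₃ J →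
    (∀ j ∈ J, (f₁ j).Prime ∧ (f₁ j : ℝ) ≤ n * Real.log n ^ B) → (∀ j ∈ J, (f₂ j).Prime ∧ (f₂ j : ℝ) ≤ n * Real.log n ^ B) →
    (∀ j ∈ J, (f₃ j).Prime ∧ (f₃ j : ℝ) ≤ n * Real.log n ^ B) →
    ∀ g₁ G₁ g₂ G₂ g₃ G₃ : ℕ, primorial y * (g₁ + G₁) ≤ n ^ 2 → (n : ℝ) ^ 2 ≤ primorial y * G₁ * Real.log n ^ C →
    primorial y * (g₂ + G₂) ≤ n ^ 2 → (n : ℝ) ^ 2 ≤ primorial y * G₂ * Real.log n ^ C →
    primorial y * (g₃ + G₃) ≤ n ^ 2 → (n : ℝ) ^ 2 ≤ primorial y * G₃ * Real.log n ^ C →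
    ((((Icc 1 G₁ ×ˢ Icc 1 G₂) ×ˢ Icc 1 G₃).filter (fun g => ((J.filter (fun j => (f₁ j ^ 2 + primorial y * (g₁ + g.1.1)).Prime ∧
      (f₂ j ^ 2 + primorial y * (g₂ + g.1.2)).Prime ∧ (f₃ j ^ 2 + primorial y * (g₃ + g.2)).Prime)).card : ℝ) <
      (1 - ε) * (J.card / (V y * (2 * Real.log n)) ^ 3))).card : ℝ) ≤ ε * (G₁ * G₂ * G₃) := by
  obtain ⟨K0, hK0⟩ := Pool.Agent.Y877.SX.step2 2 2 (Or.inr rfl) (Or.inr rfl) A B C (ε / 2) (by positivity) (by linarith)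
  obtain ⟨K0', hK0'⟩ := Pool.Agent.Y877.SX.step 2 (Or.inr rfl) (A + 4) B C (ε / 2) (by positivity) (by linarith)
  refine ⟨max K0 K0', fun K1 => ?_⟩
  obtain ⟨n0, hn0⟩ := hK0 K1
  obtain ⟨n0', hn0'⟩ := hK0' K1
  obtain ⟨n1, hn1⟩ := Pool.Agent.H373R2.T7.ev_L' (max 4 (Real.exp 1))
  refine ⟨max n0 (max n0' n1), fun n hn y hy1 hy2 J hJ f₁ f₂ f₃ hi₁ hi₂ hi₃ hf₁ hf₂ hf₃ g₁ G₁ g₂ G₂ g₃ G₃ a1 a2 a3 a4 a5 a6 => ?_⟩
  have b1 : n0 ≤ n := le_trans (le_max_left _ _) hn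
  have b2 : n0' ≤ n := le_trans (le_trans (le_max_left _ _) (le_max_right _ _)) hn
  have b3 : n1 ≤ n := le_trans (le_trans (le_max_right _ _) (le_max_right _ _)) hn
  have hL' := hn1 n b3
  have hL : 4 ≤ Real.log n := (le_max_left _ _).trans hL'
  have hlL : 0 ≤ Real.log (Real.log n) := Real.log_nonneg (by linarith)
  have hy1a : (K0 : ℝ) * Real.log (Real.log n) ≤ y :=
    le_trans (mul_le_mul_of_nonneg_right (by exact_mod_cast le_max_left _ _) hlL) hy1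
  have hy1b : (K0' : ℝ) * Real.log (Real.log n) ≤ y :=
    le_trans (mul_le_mul_of_nonneg_right (by exact_mod_cast le_max_right _ _) hlL) hy1
  have k1 := hn0 n b1 y hy1a hy2 J hJ f₁ f₂ hi₁ hi₂ hf₁ hf₂ g₁ G₁ g₂ G₂ a1 a2 a3 a4
  have hVV : V y = Pool.Agent.H373R2.T7.Vz y := rfl
  rw [hVV]
  have hVy := Pool.Agent.H373R2.T7.Vz_pos y
  have hVy1 : Pool.Agent.H373R2.T7.Vz y ≤ 1 := Pool.Agent.H373R2.T7.Vz_le_one y
  obtain ⟨W, hW⟩ : ∃ W, W = Pool.Agent.H373R2.T7.Vz y := ⟨_, rfl⟩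
  rw [← hW] at hVy hVy1 k1 ⊢
  have hL0 : 0 < Real.log n := by linarith
  obtain ⟨L, hLd⟩ : ∃ L, L = Real.log (n : ℝ) := ⟨_, rfl⟩
  obtain ⟨P, hP⟩ : ∃ P : ℕ × ℕ → ℕ → Prop, ∀ a b, P a b ↔ ((J.filter (fun j => (f₁ j ^ 2 + primorial y * (g₁ + a.1)).Prime ∧
      (f₂ j ^ 2 + primorial y * (g₂ + a.2)).Prime ∧ (f₃ j ^ 2 + primorial y * (g₃ + b)).Prime)).card : ℝ) <
      (1 - ε) * (J.card / (W * (2 * Real.log n)) ^ 3) := ⟨_, fun _ _ => Iff.rfl⟩
  have hfub := Pool.Agent.Y877.SX.fub (Icc 1 G₁ ×ˢ Icc 1 G₂) (Icc 1 G₃) P _ (ε / 2) (ε / 2) (by positivity) (by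
        refine k1.trans (le_of_eq ?_)
        simp) (by
      intro a ha hab
      have hge : (1 - ε / 2) * (J.card / ((W * ((2 : ℕ) * Real.log n)) * (W * ((2 : ℕ) * Real.log n)))) ≤
          ((J.filter (fun j => (f₁ j ^ 2 + primorial y * (g₁ + a.1)).Prime ∧ (f₂ j ^ 2 + primorial y * (g₂ + a.2)).Prime)).card : ℝ) := by
        by_contra hcon
        push Not at hcon
        exact hab (mem_filter.2 ⟨ha, hcon⟩)
      obtain ⟨J', hJ'⟩ : ∃ J', J' = J.filter (fun j => (f₁ j ^ 2 + primorial y * (g₁ + a.1)).Prime ∧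
        (f₂ j ^ 2 + primorial y * (g₂ + a.2)).Prime) := ⟨_, rfl⟩
      rw [← hJ'] at hge
      have hsubJ : J' ⊆ J := by rw [hJ']; exact filter_subset _ _
      have hd : (n : ℝ) ≤ J'.card * Real.log n ^ (A + 4) := by
        rw [← hLd] at hge hL hL0 hJ ⊢
        have h1 : (J.card : ℝ) / (2 * (2 * L * (2 * L))) ≤ J'.card := by
          refine le_trans ?_ hge
          have h2 : (J.card : ℝ) / (2 * (2 * L * (2 * L))) = 1 / 2 * (J.card / (2 * L * (2 * L))) := by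
            field_simp
          rw [h2]
          apply mul_le_mul (by linarith) _ (by positivity) (by linarith)
          apply div_le_div_of_nonneg_left (Nat.cast_nonneg _) (by push_cast; positivity)
          push_cast
          have h3 : W * (2 * L) ≤ 2 * L := by nlinarith
          exact mul_le_mul h3 h3 (by positivity) (by positivity)
        have h5 : (J.card : ℝ) ≤ J'.card * (2 * (2 * L * (2 * L))) := by
          rwa [div_le_iff₀ (by positivity)] at h1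
        have hj0 : (0 : ℝ) ≤ J'.card := Nat.cast_nonneg _
        calc (n : ℝ) ≤ J.card * L ^ A := hJ
          _ ≤ (J'.card * (2 * (2 * L * (2 * L)))) * L ^ A := mul_le_mul_of_nonneg_right h5 (by positivity)
          _ ≤ (J'.card * (L ^ 4)) * L ^ A := by
              apply mul_le_mul_of_nonneg_right _ (by positivity)
              apply mul_le_mul_of_nonneg_left _ hj0
              nlinarith [mul_pos hL0 hL0, mul_self_nonneg (L * L - 16), mul_le_mul hL hL (by norm_num) hL0.le]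
          _ = _ := by rw [pow_add]; ring
      have k2 := hn0' n b2 y hy1b hy2 J' hd f₃ (hi₃.mono (by exact_mod_cast hsubJ)) (fun j hj => hf₃ j (hsubJ hj)) g₃ G₃ a5 a6
      rw [← hW] at k2
      refine le_trans ?_ (k2.trans (le_of_eq (by simp)))
      have hsub : (Icc 1 G₃).filter (fun b => P a b) ⊆ (Icc 1 G₃).filter (fun g => ((J'.filter (fun j => (f₃ j ^ 2 + primorial y * (g₃ + g)).Prime)).card : ℝ) <
          (1 - ε / 2) * (J'.card / (W * ((2 : ℕ) * Real.log n)))) := by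
        intro b hb
        rw [mem_filter] at hb ⊢
        refine ⟨hb.1, ?_⟩
        have h3 := (hP a b).1 hb.2
        have h4 : J'.filter (fun j => (f₃ j ^ 2 + primorial y * (g₃ + b)).Prime) = J.filter (fun j => (f₁ j ^ 2 + primorial y * (g₁ + a.1)).Prime ∧
            (f₂ j ^ 2 + primorial y * (g₂ + a.2)).Prime ∧ (f₃ j ^ 2 + primorial y * (g₃ + b)).Prime) := by
          rw [hJ', filter_filter]
          apply filter_congr
          intro j _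
          tauto
        rw [h4]
        refine lt_of_lt_of_le h3 ?_
        have hpos : 0 < W * ((2 : ℕ) * Real.log n) := by push_cast; positivity
        have h5 : (1 - ε / 2) * (J.card / ((W * ((2 : ℕ) * Real.log n)) * (W * ((2 : ℕ) * Real.log n)))) / (W * ((2 : ℕ) * Real.log n)) ≤
            J'.card / (W * ((2 : ℕ) * Real.log n)) :=
          div_le_div_of_nonneg_right hge hpos.le
        have h6 := mul_le_mul_of_nonneg_left h5 (show (0 : ℝ) ≤ 1 - ε / 2 by linarith)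
        refine le_trans ?_ h6
        have h7 : (1 - ε / 2) * ((1 - ε / 2) * ((J.card : ℝ) / ((W * ((2 : ℕ) * Real.log n)) * (W * ((2 : ℕ) * Real.log n)))) /
            (W * ((2 : ℕ) * Real.log n))) = (1 - ε / 2) ^ 2 * (J.card / (W * (2 * Real.log n)) ^ 3) := by
          push_cast
          field_simp
        rw [h7]
        apply mul_le_mul_of_nonneg_right _ (by positivity)
        nlinarith
      exact_mod_cast card_le_card hsub)
  have hfe : ((Icc 1 G₁ ×ˢ Icc 1 G₂) ×ˢ Icc 1 G₃).filter (fun g => ((J.filter (fun j => (f₁ j ^ 2 + primorial y * (g₁ + g.1.1)).Prime ∧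
      (f₂ j ^ 2 + primorial y * (g₂ + g.1.2)).Prime ∧ (f₃ j ^ 2 + primorial y * (g₃ + g.2)).Prime)).card : ℝ) <
      (1 - ε) * (J.card / (W * (2 * Real.log n)) ^ 3)) = ((Icc 1 G₁ ×ˢ Icc 1 G₂) ×ˢ Icc 1 G₃).filter (fun g => P g.1 g.2) := by
    ext g
    rw [mem_filter, mem_filter, hP]
  rw [hfe]
  refine hfub.trans (le_of_eq ?_)
  simp only [card_product, Nat.card_Icc, Nat.add_sub_cancel]
  push_cast
  ring

/-- For all `A`, `C` and `0 < ε ≤ 1` there is `K₀` such that for every `K₁` and every large `n`, every `y` between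
`K₀ log log n` and `K₁ log log n`, with `M` the product of the primes `≤ y`, and all windows `(g_i, g_i + G_i]`,
`i = 1, 2, 3`, with `M (g_i + G_i) ≤ n²`, `G_i ≥ n² / (M log ^ C n)`: for every set `K` of at least `n / log ^ A n` integers
`0 < k < n`, for all but at most `ε G₁ G₂ G₃` of the triples `a_i ≤ G_i` the three numbers `p_k² + M (g₁ + a₁)`,
`p_m² + M (g₂ + a₂)` and `p_{p_m}² + M (g₃ + a₃)`, `m = n - k`, are prime for at least `(1 - ε) #K / (2 V y log n) ^ 3`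
elements `k` of `K`. -/
theorem result : ∀ (A C : ℕ) (ε : ℝ), 0 < ε → ε ≤ 1 → ∃ K₀ : ℕ, ∀ K₁ : ℕ, ∃ n₀ : ℕ, ∀ n : ℕ, n₀ ≤ n →
    ∀ y : ℕ, K₀ * Real.log (Real.log n) ≤ y → y ≤ K₁ * Real.log (Real.log n) →
    ∀ g₁ G₁ g₂ G₂ g₃ G₃ : ℕ, primorial y * (g₁ + G₁) ≤ n ^ 2 → (n : ℝ) ^ 2 ≤ primorial y * G₁ * Real.log n ^ C →
    primorial y * (g₂ + G₂) ≤ n ^ 2 → (n : ℝ) ^ 2 ≤ primorial y * G₂ * Real.log n ^ C →
    primorial y * (g₃ + G₃) ≤ n ^ 2 → (n : ℝ) ^ 2 ≤ primorial y * G₃ * Real.log n ^ C →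
    ∀ K : Finset ℕ, K ⊆ Ioo 0 n → (n : ℝ) ≤ K.card * Real.log n ^ A →
      ((((Icc 1 G₁ ×ˢ Icc 1 G₂) ×ˢ Icc 1 G₃).filter (fun a => ((Good n K (primorial y * (g₁ + a.1.1))
        (primorial y * (g₂ + a.1.2)) (primorial y * (g₃ + a.2))).card : ℝ) <
        (1 - ε) * (K.card / (V y * (2 * Real.log n)) ^ 3))).card : ℝ) ≤ ε * (G₁ * G₂ * G₃) := by
  intro A C ε hε hε1
  obtain ⟨K₀, hK₀⟩ := step3 A 5 C ε hε hε1
  refine ⟨K₀, fun K₁ => ?_⟩
  obtain ⟨n2, hn2⟩ := hK₀ K₁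
  obtain ⟨n3, hn3⟩ := Pool.Agent.H373R2.T7.ev_L' 1
  obtain ⟨n4, hn4⟩ := Pool.Agent.Y877.SX.nth_le_log
  obtain ⟨n5, hn5⟩ := Pool.Agent.Y877.SX.nth_nth_le_log
  refine ⟨max n2 (max n3 (max n4 n5)), fun n hn y hy1 hy2 g₁ G₁ g₂ G₂ g₃ G₃ q1 q2 q3 q4 q5 q6 K hK hKc => ?_⟩
  have b2 : n2 ≤ n := le_trans (le_max_left _ _) hn
  have b3 : n3 ≤ n := le_trans (le_trans (le_max_left _ _) (le_max_right _ _)) hn
  have b4 : n4 ≤ n := le_trans (le_trans (le_trans (le_max_left _ _) (le_max_right _ _)) (le_max_right _ _)) hn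
  have b5 : n5 ≤ n := le_trans (le_trans (le_trans (le_max_right _ _) (le_max_right _ _)) (le_max_right _ _)) hn
  have hL1 := hn3 n b3
  have hpw : (n : ℝ) * Real.log n ^ 4 ≤ n * Real.log n ^ 5 := by
    apply mul_le_mul_of_nonneg_left _ (Nat.cast_nonneg _)
    exact pow_le_pow_right₀ hL1 (by norm_num)
  have f1 : ∀ k ∈ Ioo 0 n, (p k).Prime ∧ (p k : ℝ) ≤ n * Real.log n ^ 5 := by
    intro k hk
    rw [mem_Ioo] at hk
    refine ⟨Nat.prime_nth_prime _, (hn4 n b4 (k - 1) (by omega)).trans ?_⟩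
    apply mul_le_mul_of_nonneg_left _ (Nat.cast_nonneg _)
    exact pow_le_pow_right₀ hL1 (by norm_num)
  have f1' : ∀ k ∈ Ioo 0 n, (p (n - k)).Prime ∧ (p (n - k) : ℝ) ≤ n * Real.log n ^ 5 := by
    intro k hk
    rw [mem_Ioo] at hk
    exact f1 (n - k) (mem_Ioo.2 ⟨by omega, by omega⟩)
  have f2 : ∀ k ∈ Ioo 0 n, (p (p (n - k))).Prime ∧ (p (p (n - k)) : ℝ) ≤ n * Real.log n ^ 5 := by
    intro k hk
    rw [mem_Ioo] at hk
    exact ⟨Nat.prime_nth_prime _, hn5 n b5 (n - k - 1) (by omega)⟩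
  have h1 := hn2 n b2 y hy1 hy2 K hKc p (fun k => p (n - k)) (fun k => p (p (n - k))) ((p_inj n).mono (by exact_mod_cast hK))
    ((pm_inj n).mono (by exact_mod_cast hK)) ((pp_inj n).mono (by exact_mod_cast hK)) (fun k hk => f1 k (hK hk))
    (fun k hk => f1' k (hK hk)) (fun k hk => f2 k (hK hk)) g₁ G₁ g₂ G₂ g₃ G₃ q1 q2 q3 q4 q5 q6
  refine le_trans (le_of_eq ?_) h1
  congr 2

end Pool.Agent.Results.MP_04ff0f_nt.GenericShifts
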