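import Pool.Agent.Run7.h524.MG.App

/-!
# `p_k ^ 2 + a`, `p_{n-k} ^ 2 + b`, `p_{p_{n-k}} ^ 2 + c` all prime: a Poisson law in random short lists of `k`

Project MK of this run (primes in intervals of length `N ^ (1/3) log ^ C N` with additive characters). New: the simultaneous
law for systems of shifted primes whose arguments are different injections on a common set of parameters, the mixed Poisson
law for almost all choices of the parameters, and the application to the arguments `p_k`, `p_{n-k}`, `p_{p_{n-k}}`.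

From Mathlib: `Nat.nth Nat.Prime i` is the prime number `i + 1` in increasing order, starting with `Nat.nth Nat.Prime 0 = 2`.
-/

set_option autoImplicit false

open Finset Polynomial

namespace Pool.Agent.Results.MP_04ff0f_nt.PoissonLawTriples

/-- The `i`-th prime; `p 1 = 2`. -/
noncomputable def p (i : ℕ) : ℕ := Nat.nth Nat.Prime (i - 1)

/-- The three numbers `p_k ^ 2`, `p_{n-k} ^ 2`, `p_{p_{n-k}} ^ 2`. -/
noncomputable def vals (n k : ℕ) : Fin 3 → ℕ := ![p k ^ 2, p (n - k) ^ 2, p (p (n - k)) ^ 2]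

open Classical in
/-- The number of the members `k` of the list `k_1, ..., k_m` for which the three numbers `p_k ^ 2 + a_0`,
`p_{n-k} ^ 2 + a_1`, `p_{p_{n-k}} ^ 2 + a_2` are all primes. -/
noncomputable def hits {S : Finset ℕ} {m : ℕ} (n : ℕ) (k : Fin m → {s // s ∈ S}) (a : Fin 3 → ℕ) : ℕ :=
  (univ.filter fun l => ∀ i, (vals n (k l) i + a i).Prime).card

open Classical in
/-- The proportion of the `k ∈ S` for which none of the three numbers `p_k ^ 2 + a_0`, `p_{n-k} ^ 2 + a_1`,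
`p_{p_{n-k}} ^ 2 + a_2` has a prime factor `≤ z`, divided by the cube of the product of the `1 - 1 / q` over the primes
`q ≤ z`. -/
noncomputable def sieved (n : ℕ) (S : Finset ℕ) (z : ℕ) (a : Fin 3 → ℕ) : ℝ :=
  (S.filter fun k => ∀ i, ∀ q ≤ z, q.Prime → ¬ q ∣ vals n k i + a i).card / S.card /
    (∏ q ∈ (Icc 1 z).filter Nat.Prime, (1 - 1 / (q : ℝ))) ^ 3

/-- The Poisson probabilities. -/
noncomputable def poisson (lam : ℝ) (j : ℕ) : ℝ := Real.exp (-lam) * lam ^ j / j.factorial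

open Classical in
/-- Let `T ≥ 0`, `B ≥ 1` and `Λ, ε > 0`. There are `C`, `B₀`, `M₀` and `δ > 0` such that for every `E` the following holds for
all large `N`, with `L = log N`, all `z` between `L ^ B₀` and `L ^ E`, all `n` with `N ^ (1/6) L ^ C ≤ n ≤ N ^ (1/2) / L ^ C`,
all sets `S` of at least `n / L ^ T` integers `k` with `1 ≤ k < n`, all sets `J` of at least `N ^ 3 / B` triples of integers
in `[1, N]`, and all `m` with `M₀ ≤ m ≤ Λ L ^ 3`. For all lists `k_1, ..., k_m` of members of `S`, with at most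
`exp (- δ L ^ 3) |S| ^ m` exceptions, for all `j ≥ 0` simultaneously: the number of the `a ∈ J` for which exactly `j` of the
`l ≤ m` make all three numbers `p_k ^ 2 + a_0`, `p_{n-k} ^ 2 + a_1`, `p_{p_{n-k}} ^ 2 + a_2`, `k = k_l`, primes differs by at
most `ε |J|` from the sum over `a ∈ J` of the Poisson probabilities `exp (- λ_a) λ_a ^ j / j!`,
`λ_a = m (sieved n S z a) / (log a_0 log a_1 log a_2)`. -/
theorem result (T B : ℕ) (hB : 1 ≤ B) (Λ ε : ℝ) (hΛ : 0 < Λ) (hε : 0 < ε) :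
    ∃ (C B₀ M₀ : ℕ) (δ : ℝ), 0 < δ ∧ ∀ E : ℕ, ∃ N₀ : ℕ, ∀ N : ℕ, N₀ ≤ N → ∀ z : ℕ,
    Real.log N ^ B₀ ≤ z → (z : ℝ) ≤ Real.log N ^ E → ∀ n : ℕ,
    (N : ℝ) ^ (1 / 6 : ℝ) * Real.log N ^ C ≤ n → n * Real.log N ^ C ≤ (N : ℝ) ^ (1 / 2 : ℝ) →
    ∀ S : Finset ℕ, S ⊆ Ico 1 n → (n : ℝ) ≤ Real.log N ^ T * S.card →
    ∀ J : Finset (Fin 3 → ℕ), J ⊆ Fintype.piFinset (fun _ : Fin 3 => Icc 1 N) → N ^ 3 ≤ B * J.card →
    ∀ m : ℕ, M₀ ≤ m → (m : ℝ) ≤ Λ * Real.log N ^ 3 →
    (((univ : Finset (Fin m → {s // s ∈ S})).filter fun k => ¬ ∀ j : ℕ,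
      |((J.filter fun a => hits n k a = j).card : ℝ) -
          ∑ a ∈ J, poisson (m * (sieved n S z a / (Real.log (a 0) * Real.log (a 1) * Real.log (a 2)))) j| ≤
        ε * J.card).card : ℝ) ≤
      Real.exp (-(δ * Real.log N ^ 3)) * (S.card : ℝ) ^ m := by
  obtain ⟨C, B₀, M₀, δ, hδ, h⟩ := Pool.Agent.Run7.h524.MG.app_triples T B hB Λ hΛ ε hε
  refine ⟨C, B₀, M₀, δ, hδ, fun E => ?_⟩
  obtain ⟨N₀, h⟩ := h E
  refine ⟨N₀, fun N hN z hz1 hz2 n hn1 hn2 S hS hSn J hJ hJB m hm1 hm2 => ?_⟩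
  have h1 := h N hN z hz1 hz2 n hn1 hn2 S hS hSn J hJ hJB m hm1 hm2
  have hv : ∀ (k : ℕ) (i : Fin 3), vals n k i = Pool.Agent.Run7.h524.MG.v3 n i k := by
    intro k i
    unfold vals Pool.Agent.Run7.h524.MG.v3 Pool.Agent.Run7.h524.MG.pn p
    fin_cases i <;> rfl
  have hs : ∀ a : Fin 3 → ℕ, sieved n S z a = Pool.Agent.Run7.h524.MG.sv (Pool.Agent.Run7.h524.MG.v3 n) S z a := by
    intro a
    unfold sieved Pool.Agent.Run7.h524.MG.sv
    simp only [hv]
  have hp : ∀ a : Fin 3 → ℕ, Real.log (a 0) * Real.log (a 1) * Real.log (a 2) = ∏ i, Real.log (a i) := by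
    intro a
    rw [Fin.prod_univ_three]
  refine le_trans (Nat.cast_le.2 (card_le_card fun ω hω => ?_)) h1
  rw [mem_filter] at hω ⊢
  refine ⟨mem_univ _, fun h3 => hω.2 fun j => ?_⟩
  have h4 := h3 j
  unfold Pool.Agent.Run7.h524.MG.pw at h4
  unfold poisson hits
  simp only [hs, hp, hv]
  exact h4

end Pool.Agent.Results.MP_04ff0f_nt.PoissonLawTriples
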