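import Mathlib
import Pool.Agent.Run7.h17.Seq2
import Pool.Agent.Run7.h17.Idx

/-!
# Almost all integers as sums of two indices at which polynomials in primes take prime values

For almost all triples `(e, e', e'')` of constant terms, almost all integers `N` are sums `N = k + m` for which
`p_k ^ 2 + e`, `p_m ^ 2 + e'` and `p_{p_m} ^ 2 + e''` are all prime, and the number of these representations is the one
predicted by the sieve (`k₁ = 1`, `k₂ = 2`, all polynomials `X ^ 2`, `u₁ 0 = u₂ 0` the sequence of the primes and `u₂ 1` the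
sequence `p_{p_m}`, lemmas `primes_arguments` and `primes_of_primes_arguments`). More generally, let `F₁ i` (`i < k₁`) and
`F₂ i` (`i < k₂`) be nonconstant integer polynomials, and let `u₁ i`, `u₂ i` be arbitrary sequences of different positive
integers which are not too sparse. For almost all constant terms of the size of the values the weighted numbers of the
representations `N = b₁ k + b₂ m` with all `F₁ i (u₁ i k) + e₁ i` and all `F₂ i (u₂ i m) + e₂ i` prime agree with the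
numbers for the sieve model for almost all `N`. Nothing is assumed about the distribution of the sequences, and the weights
of `k` and `m` are arbitrary.

Used: the starting files `Pool.Agent.H373R2.T7` (sieve model, energies of polynomial values), `Pool.Agent.TH823.Fam` and
`Pool.Agent.H560R3.GB` (von Mangoldt's function along families of small energy). From Mathlib:
`ArithmeticFunction.vonMangoldt` is von Mangoldt's function `Λ`; `Finset.Icc 1 x` are the integers from `1` to `x`;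
`Int.toNat n` is `n` for `n ≥ 0` and `0` for `n < 0`; `Nat.nth Nat.Prime (n - 1)` is the `n`-th prime.
-/

set_option autoImplicit false

namespace Pool.Agent.Results.MP_04ff0f_nt.SumsOfIndices

open Finset Polynomial

/-- Von Mangoldt's function on the integers; it is `0` at the integers `n ≤ 0`. -/
noncomputable def vM (n : ℤ) : ℝ := ArithmeticFunction.vonMangoldt n.toNat

/-- The sieve model: the positive integers without prime factors up to `z` have the weight `∏_{p ≤ z} (1 - 1 / p)⁻¹`,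
the other integers the weight `0`. -/
noncomputable def model (z : ℕ) (n : ℤ) : ℝ :=
  if 1 ≤ n ∧ ∀ p ∈ (Icc 1 z).filter Nat.Prime, ¬ p ∣ n.toNat then
    (∏ p ∈ (Icc 1 z).filter Nat.Prime, (1 - 1 / (p : ℝ)))⁻¹ else 0

/-- The weight `θ(n) ∏_i Λ(F i (u i n) + c i)`. -/
noncomputable def primeWeight {k : ℕ} (θ : ℕ → ℝ) (F : Fin k → ℤ[X]) (u : Fin k → ℕ → ℕ) (c : Fin k → ℤ) (n : ℕ) : ℝ :=
  θ n * ∏ i, vM ((F i).eval (u i n : ℤ) + c i)

/-- The weight `θ(n) ∏_i model(F i (u i n) + c i)`. -/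
noncomputable def modelWeight {k : ℕ} (z : ℕ) (θ : ℕ → ℝ) (F : Fin k → ℤ[X]) (u : Fin k → ℕ → ℕ) (c : Fin k → ℤ)
    (n : ℕ) : ℝ :=
  θ n * ∏ i, model z ((F i).eval (u i n : ℤ) + c i)

/-- The number of the solutions of `b₁ * n₁ + b₂ * n₂ = N` in integers `n₁`, `n₂` from `1` to `x`, where the solution
`(n₁, n₂)` has the weight `w₁ n₁ * w₂ n₂`. -/
noncomputable def solutions (x : ℕ) (b₁ b₂ : ℤ) (w₁ w₂ : ℕ → ℝ) (N : ℤ) : ℝ :=
  ∑ n₁ ∈ Icc 1 x, ∑ n₂ ∈ Icc 1 x, if b₁ * n₁ + b₂ * n₂ = N then w₁ n₁ * w₂ n₂ else 0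

open Classical in
/-- For all but at most `r` of the integers `N` with `|N| ≤ (|b₁| + |b₂|) x` (there are no solutions for other `N`), the
numbers of solutions with the weights `w₁, w₂` and `w₁', w₂'` differ by at most `y`. -/
def RarelyDifferent (x : ℕ) (b₁ b₂ : ℤ) (w₁ w₂ w₁' w₂' : ℕ → ℝ) (y r : ℝ) : Prop :=
  (((Icc (-((|b₁| + |b₂|) * (x : ℤ))) ((|b₁| + |b₂|) * (x : ℤ))).filter (fun N : ℤ =>
    y < |solutions x b₁ b₂ w₁ w₂ N - solutions x b₁ b₂ w₁' w₂' N|)).card : ℝ) ≤ r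

/-- `u 1, ..., u x` are different positive integers up to `x log ^ κ x`. -/
def Arguments (κ x : ℕ) (u : ℕ → ℕ) : Prop :=
  (∀ n ∈ Icc 1 x, 1 ≤ u n ∧ (u n : ℝ) ≤ Real.log x ^ κ * x) ∧ ∀ m ∈ Icc 1 x, ∀ n ∈ Icc 1 x, u m = u n → m = n

lemma lam_eq (n : ℤ) : Pool.Agent.H373R2.T7.lamI n = vM n := by
  unfold Pool.Agent.H373R2.T7.lamI vM
  split_ifs with h
  · rfl
  · have : n.toNat = 0 := Int.toNat_of_nonpos (by omega)
    rw [this]
    simp

lemma lamz_eq (z : ℕ) (n : ℤ) : Pool.Agent.H373R2.T7.lamzI z n = model z n := by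
  unfold Pool.Agent.H373R2.T7.lamzI Pool.Agent.H373R2.T7.lamz model
  by_cases h : 1 ≤ n
  · rw [if_pos h]
    by_cases h2 : ∀ p ∈ Pool.Agent.H373R2.T7.pz z, ¬ p ∣ n.toNat
    · rw [if_pos h2, if_pos ⟨h, h2⟩]
      rfl
    · rw [if_neg h2, if_neg (fun h3 => h2 h3.2)]
  · rw [if_neg h, if_neg (fun h3 => h h3.1)]

/-- the integers `n` are such a sequence of arguments -/
lemma id_arguments : ∃ x₀ : ℕ, ∀ x : ℕ, x₀ ≤ x → Arguments 5 x (fun n => n) := by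
  obtain ⟨n1, h1⟩ := Pool.Agent.H373R2.T7.ev_L' 1
  refine ⟨n1, fun x hx => ⟨fun n hn => ?_, fun m _ n _ h => h⟩⟩
  rw [mem_Icc] at hn
  have h2 : 1 ≤ Real.log x ^ 5 := one_le_pow₀ (h1 x hx)
  have h3 : (n : ℝ) ≤ x := by exact_mod_cast hn.2
  exact ⟨hn.1, h3.trans (le_mul_of_one_le_left (Nat.cast_nonneg _) h2)⟩

/-- the primes `p_n` are such a sequence of arguments -/
lemma primes_arguments : ∃ x₀ : ℕ, ∀ x : ℕ, x₀ ≤ x → Arguments 5 x (fun n => Nat.nth Nat.Prime (n - 1)) := by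
  obtain ⟨n1, h1⟩ := Pool.Agent.Run7.h17.Pos.pn_bound
  obtain ⟨n2, h2⟩ := Pool.Agent.H373R2.T7.ev_L' 1
  refine ⟨n1 + n2, fun x hx => ⟨fun n hn => ⟨?_, ?_⟩, fun m hm n hn h => ?_⟩⟩
  · exact (Nat.prime_nth_prime (n - 1)).one_lt.le
  · refine (h1 x (by omega) n hn).trans ?_
    exact mul_le_mul_of_nonneg_right (pow_le_pow_right₀ (h2 x (by omega)) (by norm_num)) (Nat.cast_nonneg _)
  · exact Pool.Agent.Run7.h17.Pos.pn_inj x (mem_coe.mpr hm) (mem_coe.mpr hn) h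

/-- the primes `p_{p_n}` are such a sequence of arguments -/
lemma primes_of_primes_arguments : ∃ x₀ : ℕ, ∀ x : ℕ, x₀ ≤ x →
    Arguments 5 x (fun n => Nat.nth Nat.Prime (Nat.nth Nat.Prime (n - 1) - 1)) := by
  obtain ⟨n1, h1⟩ := Pool.Agent.Run7.h17.Pos.pn_bound
  obtain ⟨n2, h2⟩ := Pool.Agent.H373R2.T7.ev_L' 4
  obtain ⟨n3, h3⟩ := Pool.Agent.H373R2.T7.ev_log' 2 1
  refine ⟨n1 + n2 + n3 + 2, fun x hx => ?_⟩
  have hL := h2 x (by omega)
  have hL3 := h3 x (by omega)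
  have hx1 : (1 : ℝ) ≤ x := by exact_mod_cast (by omega : 1 ≤ x)
  have hx0 : (0 : ℝ) < x := by linarith
  obtain ⟨y, hy⟩ : ∃ y : ℕ, y = ⌊Real.log x ^ 2 * x⌋₊ := ⟨_, rfl⟩
  have hy1 : (y : ℝ) ≤ Real.log x ^ 2 * x := by rw [hy]; exact Nat.floor_le (by positivity)
  have hxy : x ≤ y := by
    rw [hy]
    apply Nat.le_floor
    have e0 : (1 : ℝ) ≤ Real.log x ^ 2 := by nlinarith
    calc (x : ℝ) = 1 * x := (one_mul _).symm
      _ ≤ Real.log x ^ 2 * x := mul_le_mul_of_nonneg_right e0 hx0.le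
  have hin : ∀ n ∈ Icc 1 x, Nat.nth Nat.Prime (n - 1) ∈ Icc 1 y := by
    intro n hn
    rw [mem_Icc]
    refine ⟨(Nat.prime_nth_prime (n - 1)).one_lt.le, ?_⟩
    rw [hy]
    exact Nat.le_floor (h1 x (by omega) n hn)
  have hyx : (y : ℝ) ≤ x * x := by
    have e1 : Real.log x ^ 2 ≤ √x := by linarith
    have e2 : √x ≤ x := by
      rw [Real.sqrt_le_left hx0.le]
      nlinarith
    exact hy1.trans (mul_le_mul_of_nonneg_right (e1.trans e2) hx0.le)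
  have hy0 : (0 : ℝ) < y := by
    have : (x : ℝ) ≤ y := by exact_mod_cast hxy
    linarith
  have hlogy : Real.log y ≤ 2 * Real.log x := by
    calc Real.log y ≤ Real.log (x * x) := Real.log_le_log hy0 hyx
      _ = 2 * Real.log x := by rw [Real.log_mul hx0.ne' hx0.ne']; ring
  have hlogy0 : 0 ≤ Real.log y := Real.log_nonneg (by
    have : (x : ℝ) ≤ y := by exact_mod_cast hxy
    linarith)
  refine ⟨fun n hn => ⟨(Nat.prime_nth_prime _).one_lt.le, ?_⟩, fun m hm n hn h => ?_⟩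
  · have e1 := h1 y (by omega) _ (hin n hn)
    refine e1.trans ?_
    calc Real.log y ^ 2 * y ≤ (2 * Real.log x) ^ 2 * (Real.log x ^ 2 * x) :=
          mul_le_mul (pow_le_pow_left₀ hlogy0 hlogy 2) hy1 (Nat.cast_nonneg _) (by positivity)
      _ = (4 * Real.log x ^ 4) * x := by ring
      _ ≤ Real.log x ^ 5 * x := by
          apply mul_le_mul_of_nonneg_right _ hx0.le
          have : 0 < Real.log x ^ 4 := by positivity
          rw [pow_succ (Real.log x) 4]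
          nlinarith
  · have e1 : Nat.nth Nat.Prime (m - 1) = Nat.nth Nat.Prime (n - 1) :=
      Pool.Agent.Run7.h17.Pos.pn_inj y (mem_coe.mpr (hin m hm)) (mem_coe.mpr (hin n hn)) h
    exact Pool.Agent.Run7.h17.Pos.pn_inj x (mem_coe.mpr hm) (mem_coe.mpr hn) e1

open Classical in
/-- Let nonconstant integer polynomials `F₁ i` (`i < k₁`) and `F₂ i` (`i < k₂`) and `κ, U` be fixed. There is `B₀` such that
for all `E` and all large `x` the following holds for all integers `M₁ i`, `M₂ i` which are `x ^ d`, `d` the degree of the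
polynomial, up to the factor `log ^ κ x`, all integers `a₁ i`, `a₂ i` bounded by `M₁ i log ^ κ x` and `M₂ i log ^ κ x`,
all sequences `u₁ i`, `u₂ i` of `Arguments`, all `z` between `log ^ B₀ x` and `log ^ E x`, all weights `θ₁`, `θ₂`, bounded
by `log ^ κ x` on `[1, x]`, and all nonzero integers `b₁`, `b₂` with `|b₁| + |b₂| ≤ log ^ κ x`. For all systems
`(a₁ i + c₁ i)`, `(a₂ i + c₂ i)`, `1 ≤ c₁ i ≤ M₁ i`, `1 ≤ c₂ i ≤ M₂ i`, of constant terms but at most the proportion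
`1 / log ^ U x` of them, the weighted numbers of the solutions of `b₁ n₁ + b₂ n₂ = N` for the primes and for the model
differ by at most `x / log ^ U x` for all but at most `x / log ^ U x` integers `N`. -/
theorem result (k₁ k₂ : ℕ) (F₁ : Fin k₁ → ℤ[X]) (F₂ : Fin k₂ → ℤ[X]) (hF₁ : ∀ i, 1 ≤ (F₁ i).natDegree)
    (hF₂ : ∀ i, 1 ≤ (F₂ i).natDegree) (κ U : ℕ) :
    ∃ B₀ : ℕ, ∀ E : ℕ, ∃ x₀ : ℕ, ∀ x : ℕ, x₀ ≤ x → ∀ (M₁ : Fin k₁ → ℕ) (M₂ : Fin k₂ → ℕ),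
    (∀ i, (x : ℝ) ^ (F₁ i).natDegree ≤ Real.log x ^ κ * M₁ i ∧ (M₁ i : ℝ) ≤ Real.log x ^ κ * x ^ (F₁ i).natDegree) →
    (∀ i, (x : ℝ) ^ (F₂ i).natDegree ≤ Real.log x ^ κ * M₂ i ∧ (M₂ i : ℝ) ≤ Real.log x ^ κ * x ^ (F₂ i).natDegree) →
    ∀ (a₁ : Fin k₁ → ℤ) (a₂ : Fin k₂ → ℤ), (∀ i, |(a₁ i : ℝ)| ≤ Real.log x ^ κ * M₁ i) →
    (∀ i, |(a₂ i : ℝ)| ≤ Real.log x ^ κ * M₂ i) →
    ∀ (u₁ : Fin k₁ → ℕ → ℕ) (u₂ : Fin k₂ → ℕ → ℕ), (∀ i, Arguments κ x (u₁ i)) → (∀ i, Arguments κ x (u₂ i)) →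
    ∀ z : ℕ, Real.log x ^ B₀ ≤ z → (z : ℝ) ≤ Real.log x ^ E →
    ∀ θ₁ θ₂ : ℕ → ℝ, (∀ n ∈ Icc 1 x, |θ₁ n| ≤ Real.log x ^ κ) → (∀ n ∈ Icc 1 x, |θ₂ n| ≤ Real.log x ^ κ) →
    ∀ b₁ b₂ : ℤ, b₁ ≠ 0 → b₂ ≠ 0 → |(b₁ : ℝ)| + |(b₂ : ℝ)| ≤ Real.log x ^ κ →
    (((Fintype.piFinset (fun i => Icc 1 (M₁ i)) ×ˢ Fintype.piFinset (fun i => Icc 1 (M₂ i))).filter
      (fun c : (Fin k₁ → ℕ) × (Fin k₂ → ℕ) => ¬ RarelyDifferent x b₁ b₂
        (primeWeight θ₁ F₁ u₁ (fun i => a₁ i + c.1 i)) (primeWeight θ₂ F₂ u₂ (fun i => a₂ i + c.2 i))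
        (modelWeight z θ₁ F₁ u₁ (fun i => a₁ i + c.1 i)) (modelWeight z θ₂ F₂ u₂ (fun i => a₂ i + c.2 i))
        (x / Real.log x ^ U) (x / Real.log x ^ U))).card : ℝ) ≤
      (∏ i, (M₁ i : ℝ)) * (∏ i, (M₂ i : ℝ)) / Real.log x ^ U := by
  obtain ⟨B0, hB0⟩ := Pool.Agent.Run7.h17.PB.bin_seq k₁ k₂ F₁ F₂ hF₁ hF₂ κ U
  refine ⟨B0, fun E => ?_⟩
  obtain ⟨n1, h1⟩ := hB0 E
  refine ⟨n1, fun x hx M₁ M₂ hM₁ hM₂ a₁ a₂ ha₁ ha₂ u₁ u₂ hu₁ hu₂ z hz1 hz2 θ₁ θ₂ hθ₁ hθ₂ b₁ b₂ hb₁ hb₂ hb => ?_⟩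
  have key := h1 x hx M₁ M₂ hM₁ hM₂ a₁ a₂ (fun i => by push_cast; exact ha₁ i) (fun i => by push_cast; exact ha₂ i)
    u₁ u₂ (fun i => (hu₁ i).1) (fun i => (hu₂ i).1) (fun i m hm n hn h => (hu₁ i).2 m (mem_coe.mp hm) n (mem_coe.mp hn) h)
    (fun i m hm n hn h => (hu₂ i).2 m (mem_coe.mp hm) n (mem_coe.mp hn) h) z hz1 hz2 θ₁ θ₂ hθ₁ hθ₂ b₁ b₂ hb₁ hb₂
    (by push_cast; exact hb)
  refine le_trans (Nat.cast_le.mpr (card_le_card ?_)) key
  intro m hm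
  rw [mem_filter] at hm ⊢
  refine ⟨hm.1, fun hgood => hm.2 ?_⟩
  have e1 : ∀ (k : ℕ) (F : Fin k → ℤ[X]) (u : Fin k → ℕ → ℕ) (a : Fin k → ℤ) (c : Fin k → ℕ) (θ : ℕ → ℝ),
      (primeWeight θ F u (fun i => a i + c i)) =
      fun t : ℕ => θ t * ∏ i, Pool.Agent.H373R2.T7.lamI (a i + (F i).eval (u i t : ℤ) + (c i : ℤ)) := by
    intro k F u a c θ
    ext t
    unfold primeWeight
    congr 1
    refine prod_congr rfl fun i _ => ?_
    rw [← lam_eq]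
    congr 1
    ring
  have e2 : ∀ (k : ℕ) (F : Fin k → ℤ[X]) (u : Fin k → ℕ → ℕ) (a : Fin k → ℤ) (c : Fin k → ℕ) (θ : ℕ → ℝ),
      (modelWeight z θ F u (fun i => a i + c i)) =
      fun t : ℕ => θ t * ∏ i, Pool.Agent.H373R2.T7.lamzI z (a i + (F i).eval (u i t : ℤ) + (c i : ℤ)) := by
    intro k F u a c θ
    ext t
    unfold modelWeight
    congr 1
    refine prod_congr rfl fun i _ => ?_
    rw [← lamz_eq]
    congr 1
    ring
  unfold Pool.Agent.Run7.h17.Tern.Rare Pool.Agent.Run7.h17.Tern.rep2 at hgood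
  unfold RarelyDifferent solutions
  simp only [e1, e2]
  exact hgood

end Pool.Agent.Results.MP_04ff0f_nt.SumsOfIndices
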